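import Pool.Agent.W314.BA.Stm

/-! MP_f2742c_an: project BA, part DE (decay of averages of smoothed functions). -/

open MeasureTheory Set Filter Topology Real
open scoped ENNReal NNReal

namespace Pool.Agent.W91.BA.DE

open Pool.Agent.W314.BA

noncomputable section

lemma Fs_pos (s : ℕ) {t : ℝ} (ht : 1 ≤ t) : 0 < Fs s t := by
  unfold Fs; positivity

lemma Fs_anti {s s' : ℕ} (h : s ≤ s') {t : ℝ} (ht : 1 ≤ t) : Fs s' t ≤ Fs s t := by
  unfold Fs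
  apply inv_anti₀ (by positivity)
  exact pow_le_pow_right₀ (by linarith) h

lemma Fs_cont (s : ℕ) : ContinuousOn (Fs s) (Ici 1) := by
  unfold Fs
  apply ContinuousOn.inv₀
  · fun_prop
  · intro t ht
    have : (1 : ℝ) ≤ t := ht
    positivity

lemma KF_Fs (s : ℕ) (hs : 2 ≤ s) : KF (Fs s) := by
  refine ⟨Fs_cont s, 1, fun t ht => ?_⟩
  rw [abs_of_pos (Fs_pos s ht), one_mul]
  exact Fs_anti hs ht

lemma KF_Gs (s : ℕ) (hs : 2 ≤ s) : KF (Gs s) := by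
  refine ⟨?_, 2 * (s : ℝ) ^ 2 + (s : ℝ) * ((s : ℝ) - 1), fun t ht => ?_⟩
  · unfold Gs
    exact ((Fs_cont (s + 1)).const_mul _).sub ((Fs_cont s).const_mul _)
  · unfold Gs
    have h1 := Fs_pos (s + 1) ht
    have h2 := Fs_pos s ht
    have h3 := Fs_anti (show 2 ≤ s + 1 by omega) ht
    have h4 := Fs_anti hs ht
    have hs' : (2 : ℝ) ≤ s := by exact_mod_cast hs
    have h5 : 0 ≤ 2 * (s : ℝ) ^ 2 := by positivity
    have h6 : 0 ≤ (s : ℝ) * ((s : ℝ) - 1) := by nlinarith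
    rw [abs_le]
    constructor <;> nlinarith [mul_le_mul_of_nonneg_left h3 h5, mul_le_mul_of_nonneg_left h4 h6,
      mul_nonneg h5 h1.le, mul_nonneg h6 h2.le]

lemma Fs2_int : Integrable (fun g : G => Fs 2 (hh g)) hm := by
  have h1 : IntegrableOn (fun t : ℝ => Fs 2 t) (Ici 1) volume := by
    rw [integrableOn_Ici_iff_integrableOn_Ioi]
    have h2 : IntegrableOn (fun t : ℝ => t ^ (-2 : ℝ)) (Ioi 1) volume :=
      integrableOn_Ioi_rpow_of_lt (by norm_num) one_pos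
    refine Integrable.mono' h2 ?_ ?_
    · exact ((Fs_cont 2).mono Ioi_subset_Ici_self).aestronglyMeasurable measurableSet_Ioi
    · filter_upwards [ae_restrict_mem measurableSet_Ioi] with t ht
      have ht' : (1 : ℝ) < t := ht
      have ht0 : 0 < t := by linarith
      rw [Real.norm_of_nonneg (Fs_pos 2 ht'.le).le]
      unfold Fs
      rw [Real.rpow_neg ht0.le]
      apply inv_anti₀ (by positivity)
      have : t ^ (2 : ℝ) = t ^ 2 := by norm_cast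
      rw [this]
      nlinarith
  have h2 : Integrable (Fs 2) (hm.map hh) := by
    rw [map_hh]; exact h1
  exact h2.comp_measurable hh_measurable

section
variable {Y : Type} [MeasurableSpace Y] [MulAction G Y]

lemma norm_ee (t : ℝ) : ‖ee t‖ = 1 := by
  unfold ee
  rw [Complex.norm_exp]
  simp

omit [MeasurableSpace Y] in
/-- sup bound for the operators -/
lemma op_bound (c : G → Y → ℤ) (F : ℝ → ℝ) (hF : KF F) : ∃ C : ℝ, 0 ≤ C ∧
    ∀ (θ : ℝ) (f : Y → ℂ), (∀ y, ‖f y‖ ≤ 1) → ∀ y, ‖op c θ F f y‖ ≤ C := by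
  obtain ⟨_, C, hC⟩ := hF
  refine ⟨|C| * ∫ g, Fs 2 (hh g) ∂hm, ?_, fun θ f hf y => ?_⟩
  · apply mul_nonneg (abs_nonneg _)
    exact integral_nonneg fun g => (Fs_pos 2 (one_le_hh g)).le
  · rw [← integral_const_mul]
    apply norm_integral_le_of_norm_le (Fs2_int.const_mul _)
    filter_upwards with g
    rw [norm_mul, norm_mul, norm_ee, one_mul, Complex.norm_real, Real.norm_eq_abs]
    have h1 := hC _ (one_le_hh g)
    have h2 := Fs_pos 2 (one_le_hh g)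
    calc |F (hh g)| * ‖f (g • y)‖ ≤ |F (hh g)| * 1 :=
          mul_le_mul_of_nonneg_left (hf _) (abs_nonneg _)
      _ = |F (hh g)| := mul_one _
      _ ≤ C * Fs 2 (hh g) := h1
      _ ≤ |C| * Fs 2 (hh g) := mul_le_mul_of_nonneg_right (le_abs_self _) h2.le

omit [MulAction G Y] in
lemma memLp_of_BM {μ : Measure Y} [IsFiniteMeasure μ] {f : Y → ℂ} (hf : BM f) : MemLp f 2 μ := by
  obtain ⟨h1, C, hC⟩ := hf
  exact MemLp.of_bound h1.aestronglyMeasurable C (Filter.Eventually.of_forall hC)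

omit [MulAction G Y] in
lemma inner_re {μ : Measure Y} (U V : Lp ℂ 2 μ) (F F' : Y → ℂ) (hU : (U : Y → ℂ) =ᵐ[μ] F)
    (hV : (V : Y → ℂ) =ᵐ[μ] F') :
    (inner ℂ U V).re = (∫ y, F y * (starRingEnd ℂ) (F' y) ∂μ).re := by
  rw [← inner_conj_symm, Complex.conj_re, L2.inner_def]
  congr 1
  apply integral_congr_ae
  filter_upwards [hU, hV] with y h1 h2
  rw [h1, h2]
  exact RCLike.inner_apply _ _

omit [MulAction G Y] in
lemma norm_sq {μ : Measure Y} (U : Lp ℂ 2 μ) (F : Y → ℂ) (hU : (U : Y → ℂ) =ᵐ[μ] F) :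
    ‖U‖ ^ 2 = ∫ y, ‖F y‖ ^ 2 ∂μ := by
  have h1 : ‖U‖ ^ 2 = (inner ℂ U U).re := by
    have := inner_self_eq_norm_sq (𝕜 := ℂ) U
    rw [← this]; rfl
  rw [h1, inner_re U U F F hU hU]
  have h2 : ∀ y, F y * (starRingEnd ℂ) (F y) = ((‖F y‖ ^ 2 : ℝ) : ℂ) := by
    intro y
    rw [Complex.mul_conj, Complex.normSq_eq_norm_sq]
  simp only [h2]
  rw [integral_complex_ofReal, Complex.ofReal_re]

end

/-- the common part of both estimates -/
lemma core (h1 : EnergyStmt) (h2 : OpStmt) (h3 : PairL2Stmt) (h5 : Basic1Stmt)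
    {Y : Type} [MeasurableSpace Y] [MulAction G Y] (μ : Measure Y)
    (c : G → Y → ℤ) (hS : Sys μ c) (s : ℕ) (hs : 2 ≤ s) (C₁ C₂ : ℝ) (hC₁ : 0 ≤ C₁) (hC₂ : 0 ≤ C₂)
    (θ : ℝ) (f : Y → ℂ) (hf : BM f)
    (hb₁ : ∀ y, ‖op c θ (Fs s) f y‖ ≤ C₁) (hb₂ : ∀ y, ‖op c θ (Gs s) f y‖ ≤ C₂)
    (X κ₀ κ : ℝ) (hX : 1 < X) (hκ : 0 < κ) (hκ1 : κ ≤ 1) (hκX : κ * (X - 1) ≤ 4 * κ₀)
    (hgap : ∀ x : ℝ, 1 < x → κ₀ * ∫ y, ‖tw c θ (bm x) (op c θ (Fs s) f) y‖ ^ 2 ∂μ ≤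
      ∫ y, ‖tw c θ (bm x) (op c θ (Fs s) f) y‖ ^ 2 ∂μ -
      (∫ y, tw c θ (bm X) (tw c θ (bm x) (op c θ (Fs s) f)) y *
        (starRingEnd ℂ) (tw c θ (bm x) (op c θ (Fs s) f) y) ∂μ).re) (x : ℝ) (hx : 2 ≤ x) :
    ∫ y, ‖tw c θ (bm x) (op c θ (Fs s) f) y‖ ^ 2 ∂μ ≤
      256 * (C₁ + C₂) ^ 2 * (x / 2) ^ (-(κ / 2)) := by
  have := hS.prob
  obtain ⟨A, hA, hA2⟩ := h2 Y μ c hS θ
  have hB := h5 Y μ c hS θ f hf
  have hu := hB.2.1 _ (KF_Fs s hs)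
  have hv := hB.2.1 _ (KF_Gs s hs)
  set u : Lp ℂ 2 μ := (memLp_of_BM (μ := μ) hu).toLp _ with hudef
  set v : Lp ℂ 2 μ := (memLp_of_BM (μ := μ) hv).toLp _ with hvdef
  have hue : (u : Y → ℂ) =ᵐ[μ] op c θ (Fs s) f := MemLp.coeFn_toLp _
  have hve : (v : Y → ℂ) =ᵐ[μ] op c θ (Gs s) f := MemLp.coeFn_toLp _
  have hP : Pair A u v := h3 Y μ c hS θ A hA hA2 f hf s hs u v hue hve
  have hAx : ∀ x : ℝ, 1 < x →
      ((A x u : Lp ℂ 2 μ) : Y → ℂ) =ᵐ[μ] tw c θ (bm x) (op c θ (Fs s) f) :=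
    fun x hx => hA2 x hx u _ hu hue
  have hAXx : ∀ x : ℝ, 1 < x →
      ((A X (A x u) : Lp ℂ 2 μ) : Y → ℂ) =ᵐ[μ]
        tw c θ (bm X) (tw c θ (bm x) (op c θ (Fs s) f)) :=
    fun x hx => hA2 X hX _ _ ((h5 Y μ c hS θ _ hu).1 x hx) (hAx x hx)
  have hnu : ‖u‖ ≤ C₁ := by
    have := Lp.norm_le_of_ae_bound (f := u) hC₁ (by
      filter_upwards [hue] with y hy
      rw [hy]; exact hb₁ y)
    simpa [measureUnivNNReal] using this
  have hnv : ‖v‖ ≤ C₂ := by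
    have := Lp.norm_le_of_ae_bound (f := v) hC₂ (by
      filter_upwards [hve] with y hy
      rw [hy]; exact hb₂ y)
    simpa [measureUnivNNReal] using this
  have hE := h1 (Lp ℂ 2 μ) A u v hA hP X κ₀ κ hX hκ hκ1 hκX (by
    intro x hx
    rw [norm_sq _ _ (hAx x hx), inner_re _ _ _ _ (hAXx x hx) (hAx x hx)]
    exact hgap x hx) x hx
  rw [norm_sq _ _ (hAx x (by linarith))] at hE
  refine hE.trans ?_
  apply mul_le_mul_of_nonneg_right _ (by positivity)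
  apply mul_le_mul_of_nonneg_left _ (by norm_num)
  exact pow_le_pow_left₀ (by positivity) (add_le_add hnu hnv) 2

lemma pow_bound (x a : ℝ) (hx : 2 ≤ x) (ha : 0 ≤ a) (ha1 : a ≤ 1) :
    (x / 2) ^ (-a) ≤ 2 * x ^ (-a) := by
  rw [Real.div_rpow (by linarith) (by norm_num), div_eq_mul_inv, mul_comm]
  apply mul_le_mul_of_nonneg_right _ (by positivity)
  rw [Real.rpow_neg (by norm_num), inv_inv]
  calc (2 : ℝ) ^ a ≤ 2 ^ (1 : ℝ) := Real.rpow_le_rpow_of_exponent_le (by norm_num) ha1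
    _ = 2 := Real.rpow_one _

theorem main (h1 : EnergyStmt) (h2 : OpStmt) (h3 : PairL2Stmt) (h4 : GapStmt)
    (h5 : Basic1Stmt) (h6 : Basic2Stmt) : DecayStmt := by
  intro Y _ _ μ c hS
  have := hS.prob
  obtain ⟨X, κ₀, hX, hκ₀, d, hd, hg1, hg2⟩ := h4 Y μ c hS
  set κ₁ : ℝ := min (1 / 4) (4 * κ₀ / (X - 1)) with hκ₁
  have hX1 : 0 < X - 1 := by linarith
  have hpos : 0 < κ₁ := lt_min (by norm_num) (by positivity)
  have hle : κ₁ ≤ 1 / 4 := min_le_left _ _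
  have hle2 : κ₁ * (X - 1) ≤ 4 * κ₀ := by
    have : κ₁ ≤ 4 * κ₀ / (X - 1) := min_le_right _ _
    rwa [le_div_iff₀ hX1] at this
  refine ⟨κ₁ / 2, by positivity, d, hd, fun s hs => ?_⟩
  obtain ⟨C₁, hC₁, hb₁⟩ := op_bound c (Fs s) (KF_Fs s hs)
  obtain ⟨C₂, hC₂, hb₂⟩ := op_bound c (Gs s) (KF_Gs s hs)
  refine ⟨512 * (C₁ + C₂) ^ 2 + C₁ ^ 2, ?_, ?_⟩
  · intro θ f hfm hf1 x hx
    have hf : BM f := ⟨hfm, 1, hf1⟩
    have hu := (h5 Y μ c hS θ f hf).2.1 _ (KF_Fs s hs)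
    have hx1 : 1 < x := by linarith
    set e : ℝ := ‖ee (d * θ) - 1‖ ^ 2 with he
    have he0 : 0 ≤ e := by positivity
    have he4 : e ≤ 4 := by
      have : ‖ee (d * θ) - 1‖ ≤ 2 := by
        calc ‖ee (d * θ) - 1‖ ≤ ‖ee (d * θ)‖ + ‖(1 : ℂ)‖ := norm_sub_le _ _
          _ = 2 := by rw [norm_ee, norm_one]; norm_num
      rw [he]
      nlinarith [norm_nonneg (ee (d * θ) - 1)]
    rcases he0.eq_or_lt with he' | he'
    · rw [← he', mul_zero, neg_zero, Real.rpow_zero, mul_one]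
      have h7 := (h5 Y μ c hS θ _ hu).2.2.1 C₁ x hx1 (hb₁ θ f hf1)
      calc ∫ y, ‖tw c θ (bm x) (op c θ (Fs s) f) y‖ ^ 2 ∂μ ≤ ∫ _ : Y, C₁ ^ 2 ∂μ := by
            apply integral_mono_of_nonneg (Filter.Eventually.of_forall fun y => by positivity)
              (integrable_const _)
            exact Filter.Eventually.of_forall fun y => pow_le_pow_left₀ (norm_nonneg _) (h7 y) 2
        _ = C₁ ^ 2 := by simp
        _ ≤ 512 * (C₁ + C₂) ^ 2 + C₁ ^ 2 := by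
          have : 0 ≤ 512 * (C₁ + C₂) ^ 2 := by positivity
          linarith
    · have hE := core h1 h2 h3 h5 μ c hS s hs C₁ C₂ hC₁ hC₂ θ f hf (hb₁ θ f hf1) (hb₂ θ f hf1)
        X (κ₀ * e) (κ₁ * e) hX (by positivity) (by nlinarith) (by nlinarith) (by
          intro x hx
          exact hg1 θ _ ((h5 Y μ c hS θ _ hu).1 x hx)) x hx
      refine hE.trans ?_
      have h8 : κ₁ * e / 2 = κ₁ / 2 * e := by ring
      rw [h8]
      have h9 := pow_bound x (κ₁ / 2 * e) hx (by positivity) (by nlinarith)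
      have h10 : 0 ≤ x ^ (-(κ₁ / 2 * e)) := Real.rpow_nonneg (by linarith) _
      calc 256 * (C₁ + C₂) ^ 2 * (x / 2) ^ (-(κ₁ / 2 * e))
          ≤ 256 * (C₁ + C₂) ^ 2 * (2 * x ^ (-(κ₁ / 2 * e))) :=
            mul_le_mul_of_nonneg_left h9 (by positivity)
        _ ≤ (512 * (C₁ + C₂) ^ 2 + C₁ ^ 2) * x ^ (-(κ₁ / 2 * e)) := by
          nlinarith [mul_nonneg (sq_nonneg C₁) h10]
  · intro f hfm hf1 hf0 x hx
    have hf : BM f := ⟨hfm, 1, hf1⟩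
    have hu := (h5 Y μ c hS 0 f hf).2.1 _ (KF_Fs s hs)
    have hE := core h1 h2 h3 h5 μ c hS s hs C₁ C₂ hC₁ hC₂ 0 f hf (hb₁ 0 f hf1) (hb₂ 0 f hf1)
        X κ₀ κ₁ hX hpos (by linarith) hle2 (by
          intro x hx
          have h7 : ∫ y, op c 0 (Fs s) f y ∂μ = 0 := by
            rw [(h6 Y μ c hS 0 f f hf hf x hx).2.2.2 _ (KF_Fs s hs), hf0, mul_zero]
          have h8 : ∫ y, tw c 0 (bm x) (op c 0 (Fs s) f) y ∂μ = 0 := by
            rw [(h6 Y μ c hS 0 _ f hu hf x hx).2.2.1, h7]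
          exact hg2 _ ((h5 Y μ c hS 0 _ hu).1 x hx) h8) x hx
    refine hE.trans ?_
    have h9 := pow_bound x (κ₁ / 2) hx (by positivity) (by linarith)
    have h10 : 0 ≤ x ^ (-(κ₁ / 2)) := Real.rpow_nonneg (by linarith) _
    calc 256 * (C₁ + C₂) ^ 2 * (x / 2) ^ (-(κ₁ / 2))
        ≤ 256 * (C₁ + C₂) ^ 2 * (2 * x ^ (-(κ₁ / 2))) :=
          mul_le_mul_of_nonneg_left h9 (by positivity)
      _ ≤ (512 * (C₁ + C₂) ^ 2 + C₁ ^ 2) * x ^ (-(κ₁ / 2)) := by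
        nlinarith [mul_nonneg (sq_nonneg C₁) h10]

end

end Pool.Agent.W91.BA.DE
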